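import Mathlib
import Pool.Agent.PDN.Stmts

/-! # CHN: chain of strips -/

set_option autoImplicit false

namespace Pool.Agent.PDN.H65

open Finset

/-- the state after `t` strips -/
def Inv (m y : ℕ) (e : ℕ → ℕ) (t : ℕ) : Prop :=
  ∃ (V : Type) (_ : Fintype V) (T : Tri V) (p : ℕ → V) (x x' : V),
    (∀ i j, i < m → j < m → p i = p j → i = j) ∧ x ≠ x' ∧
    (∀ i, i < m → p i ≠ x ∧ p i ≠ x') ∧
    (∀ i, t ≤ i → i + 1 < m → T.f (p i) (p (i + 1)) x ∧ T.f (p (i + 1)) (p i) x') ∧
    T.deg x = m + y + t ∧ T.deg x' = m + y + t ∧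
    (∀ i, i < m → T.deg (p i) = 4 + (if 0 < i ∧ i - 1 < t then e (i - 1) else 0) +
      (if i < t then e i else 0)) ∧
    (∀ v, v ≠ x → v ≠ x' → (∀ i, i < m → v ≠ p i) → T.deg v = 4) ∧
    Nat.card V = m + y + 2 + ∑ j ∈ range t, (e j + 1) ∧
    T.graph.Connected

theorem inv_zero (bip : BipStmt) (m y : ℕ) (e : ℕ → ℕ) (h : 3 ≤ m + y) : Inv m y e 0 := by
  classical
  obtain ⟨V, hV, T, p, x, x', hinj, hxx, hpx, hall, hf, hdp, hdx, hdx', hcon⟩ := bip (m + y) h
  refine ⟨V, hV, T, p, x, x', fun i j hi hj => hinj i j (by omega) (by omega), hxx,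
    fun i _ => hpx i, fun i _ _ => hf i, by simpa using hdx, by simpa using hdx', ?_, ?_, ?_, hcon⟩
  · intro i _
    simp [hdp i]
  · intro v h1 h2 _
    rcases hall v with h3 | h3 | ⟨i, _, h3⟩
    · exact absurd h3 h1
    · exact absurd h3 h2
    · rw [h3, hdp i]
  · rw [Finset.sum_range_zero, add_zero, Nat.card_eq_fintype_card, ← Finset.card_univ]
    have hu : (Finset.univ : Finset V) = insert x (insert x' ((range (m + y)).image p)) := by
      ext v
      simp only [Finset.mem_univ, Finset.mem_insert, Finset.mem_image, Finset.mem_range, true_iff]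
      rcases hall v with h3 | h3 | ⟨i, hi, h3⟩
      · exact Or.inl h3
      · exact Or.inr (Or.inl h3)
      · exact Or.inr (Or.inr ⟨i, hi, h3.symm⟩)
    rw [hu, Finset.card_insert_of_notMem, Finset.card_insert_of_notMem,
      Finset.card_image_of_injOn, Finset.card_range]
    · intro i hi j hj hij
      exact hinj i j (by simpa using hi) (by simpa using hj) hij
    · simp only [Finset.mem_image, not_exists, not_and]
      intro i _
      exact (hpx i).2
    · simp only [Finset.mem_insert, Finset.mem_image, not_or, not_exists, not_and]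
      exact ⟨hxx, fun i _ => (hpx i).1⟩

theorem inv_succ (str : StrStmt) (m y : ℕ) (e : ℕ → ℕ) (t : ℕ) (ht : t + 1 < m)
    (h : Inv m y e t) : Inv m y e (t + 1) := by
  classical
  obtain ⟨V, hV, T, p, x, x', hinj, hxx, hpx, hf, hdx, hdx', hdp, hoth, hcard, hcon⟩ := h
  obtain ⟨W, hW, T', ι, hkeep, hdu, hdv, hda, hda', hdo, hnew, hcardW, hconW⟩ :=
    str V T (p t) (p (t + 1)) x x' (e t) (hf t le_rfl ht).1 (hf t le_rfl ht).2 hxx hcon
  have hne : ∀ i j, i < m → j < m → i ≠ j → p i ≠ p j := fun i j hi hj hij he =>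
    hij (hinj i j hi hj he)
  refine ⟨W, hW, T', fun i => ι (p i), ι x, ι x', ?_, ?_, ?_, ?_, ?_, ?_, ?_, ?_, ?_, hconW⟩
  · intro i j hi hj hij
    exact hinj i j hi hj (ι.injective hij)
  · exact fun hh => hxx (ι.injective hh)
  · intro i hi
    exact ⟨fun hh => (hpx i hi).1 (ι.injective hh), fun hh => (hpx i hi).2 (ι.injective hh)⟩
  · intro i hi1 hi2
    have h1 := hne t i (by omega) (by omega) (by omega)
    have h2 := hne t (i + 1) (by omega) (by omega) (by omega)
    have h3 := hpx t (by omega)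
    constructor
    · apply hkeep _ _ _ (hf i (by omega) hi2).1
      rintro ⟨h4 | h4 | h4, _⟩
      · exact h1 h4
      · exact h2 h4
      · exact h3.1 h4
    · apply hkeep _ _ _ (hf i (by omega) hi2).2
      rintro ⟨h4 | h4 | h4, _⟩
      · exact h2 h4
      · exact h1 h4
      · exact h3.2 h4
  · rw [hda, hdx]; ring
  · rw [hda', hdx']; ring
  · intro i hi
    by_cases h1 : i = t
    · subst h1
      rw [hdu, hdp i hi, if_neg (lt_irrefl i), if_pos (Nat.lt_succ_self i)]
      by_cases h2 : 0 < i
      · rw [if_pos ⟨h2, by omega⟩, if_pos ⟨h2, by omega⟩, add_zero]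
      · rw [if_neg (fun h3 => h2 h3.1), if_neg (fun h3 => h2 h3.1)]
    · by_cases h2 : i = t + 1
      · subst h2
        rw [hdv, hdp (t + 1) hi, if_neg (by omega), if_neg (by omega), if_pos (by omega),
          if_neg (by omega)]
        simp
      · rw [hdo (p i) (hne i t hi (by omega) h1) (hne i (t + 1) hi (by omega) h2) (hpx i hi).1
          (hpx i hi).2, hdp i hi]
        have e1 : (0 < i ∧ i - 1 < t + 1) ↔ (0 < i ∧ i - 1 < t) := by omega
        have e2 : (i < t + 1) ↔ (i < t) := by omega
        simp only [e1, e2]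
  · intro w h1 h2 h3
    by_cases hw : w ∈ Set.range ι
    · obtain ⟨v, rfl⟩ := hw
      have h1' : v ≠ x := fun hh => h1 (by rw [hh])
      have h2' : v ≠ x' := fun hh => h2 (by rw [hh])
      have h3' : ∀ i, i < m → v ≠ p i := fun i hi hh => h3 i hi (by rw [hh])
      rw [hdo v (h3' t (by omega)) (h3' (t + 1) ht) h1' h2']
      exact hoth v h1' h2' h3'
    · exact hnew w hw
  · rw [hcardW, hcard, Finset.sum_range_succ]; ring

theorem inv_all (bip : BipStmt) (str : StrStmt) (m y : ℕ) (e : ℕ → ℕ) (h : 3 ≤ m + y) :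
    ∀ t, t + 1 ≤ m → Inv m y e t := by
  intro t
  induction t with
  | zero => intro _; exact inv_zero bip m y e h
  | succ t ih =>
    intro ht
    exact inv_succ str m y e t (by omega) (ih (by omega))

theorem chn (bip : BipStmt) (str : StrStmt) : ChnStmt := by
  classical
  intro m y e hm hmy
  obtain ⟨V, hV, T, p, x, x', hinj, hxx, hpx, -, hdx, hdx', hdp, hoth, hcard, hcon⟩ :=
    inv_all bip str m y e hmy (m - 1) (by omega)
  refine ⟨V, hV, T, hcon, ?_⟩
  have hinjOn : Set.InjOn p (range m : Finset ℕ) := by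
    intro i hi j hj hij
    exact hinj i j (by simpa using hi) (by simpa using hj) hij
  obtain ⟨S1, hS1⟩ : ∃ S1 : Finset V, S1 = {x, x'} := ⟨_, rfl⟩
  obtain ⟨S2, hS2⟩ : ∃ S2 : Finset V, S2 = (range m).image p := ⟨_, rfl⟩
  have hd12 : Disjoint S1 S2 := by
    rw [Finset.disjoint_left, hS1, hS2]
    intro v hv hv2
    obtain ⟨i, hi, rfl⟩ := Finset.mem_image.1 hv2
    have := hpx i (by simpa using hi)
    simp only [Finset.mem_insert, Finset.mem_singleton] at hv
    rcases hv with hv | hv
    · exact this.1 hv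
    · exact this.2 hv
  obtain ⟨R, hR⟩ : ∃ R : Finset V, R = (S1.disjUnion S2 hd12)ᶜ := ⟨_, rfl⟩
  have hd : Disjoint (S1.disjUnion S2 hd12) R := by
    rw [hR]; exact disjoint_compl_right
  have huniv : (Finset.univ : Finset V) = (S1.disjUnion S2 hd12).disjUnion R hd := by
    rw [Finset.disjUnion_eq_union, hR, Finset.union_compl]
  have hval : (Finset.univ : Finset V).val = S1.val + S2.val + R.val := by
    rw [huniv]; rfl
  have hc1 : S1.card = 2 := by rw [hS1]; exact Finset.card_pair hxx
  have hc2 : S2.card = m := by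
    rw [hS2, Finset.card_image_of_injOn hinjOn, Finset.card_range]
  have hcR : R.card = y + ∑ j ∈ range (m - 1), (e j + 1) := by
    have h1 : (Finset.univ : Finset V).card = S1.card + S2.card + R.card := by
      rw [huniv, Finset.card_disjUnion, Finset.card_disjUnion]
    rw [Finset.card_univ, ← Nat.card_eq_fintype_card, hcard, hc1, hc2] at h1
    omega
  rw [hval, Multiset.map_add, Multiset.map_add]
  congr 1
  · congr 1
    · rw [hS1, Finset.insert_val_of_notMem (by simpa using hxx)]
      rw [Multiset.map_cons, Finset.singleton_val, Multiset.map_singleton, hdx, hdx']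
      rfl
    · rw [hS2, Finset.image_val_of_injOn hinjOn, Multiset.map_map]
      apply Multiset.map_congr rfl
      intro j hj
      have hj' : j < m := by simpa using hj
      simp only [Function.comp]
      rw [hdp j hj']
      have e1 : (0 < j ∧ j - 1 < m - 1) ↔ 0 < j := by omega
      have e2 : j < m - 1 ↔ j + 1 < m := by omega
      simp only [e1, e2]
  · rw [← hcR]
    apply Multiset.eq_replicate.2
    refine ⟨by simp, ?_⟩
    intro b hb
    obtain ⟨v, hv, rfl⟩ := Multiset.mem_map.1 hb
    have hv' : v ∈ R := hv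
    rw [hR, Finset.mem_compl, Finset.mem_disjUnion, not_or, hS1, hS2] at hv'
    simp only [Finset.mem_insert, Finset.mem_singleton, not_or, Finset.mem_image, not_exists,
      not_and] at hv'
    exact hoth v hv'.1.1 hv'.1.2 (fun i hi hh => hv'.2 i (by simpa using hi) hh.symm)

end Pool.Agent.PDN.H65
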